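import Pool.Agent.N193.PS.Pe3
import Pool.Agent.J4.H33.NI.Tw

/-!
# The Frobenius angles at `s` consecutive primes: all boxes, for almost all members of one-parameter families of elliptic
curves with the parameter `⌊f n⌋`, where `f` is a function of non-integral index; and the twists by such numbers

Definitions: `Pool.Agent.W406.TW.ap A B p = -∑_{x mod p} ((x³ + A x + B) / p)` (Jacobi symbols) is the trace of Frobenius of
`y² = x³ + A x + B` at an odd prime `p` of good reduction; `Pool.Agent.W406.TW.ang A B p` is the angle in `[0, 1]` with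
`2 p ^ (1 / 2) cos (π ang) = ap A B p`, and `1 / 2` if `p` divides `2 (4 A³ + 27 B²)`.

From Mathlib: `ContDiffAt ℝ ⊤`: infinitely differentiable at a point; `iteratedDeriv m f`: the derivative of order `m`;
`⌊y⌋₊`: the integer part of `y`, and `0` for `y < 0`; `Nat.nth Nat.Prime k`: the prime
with the index `k`, starting with `k = 0`; `Set.OrdConnected`: intervals.

Method: the values `⌊f n⌋` are uniformly distributed in the residue classes of all moduli up to a power of the number of the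
values, with a power saving (library `Pool.Agent.N193.PS`: differencing, Kusmin-Landau, Fejer kernels). The high moments
and the passage to all boxes follow the starting files (`Pool.Agent.TH869.SQ`). For the twists the finite-field model is
computed: it is the mean over the reflections of the counts for the curve itself.
-/

set_option autoImplicit false

namespace Pool.Agent.Results.MP_29be01_nt.NonIntegralOrderCurves

open Finset Filter Polynomial Pool.Agent.W406.TW Pool.Agent.J4.H33.NI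

/-- `f` is smoothly varying of index `c`: it is infinitely differentiable and positive for large arguments, and
`t ^ m f⁽ᵐ⁾(t) / f(t) → c (c - 1) ... (c - m + 1)` for every `m`. -/
def SmoothlyVarying (c : ℝ) (f : ℝ → ℝ) : Prop :=
  (∃ t₀ : ℝ, ∀ t > t₀, ContDiffAt ℝ ((⊤ : ℕ∞) : WithTop ℕ∞) f t ∧ 0 < f t) ∧
  ∀ m : ℕ, Tendsto (fun t => t ^ m * iteratedDeriv m f t / f t) atTop (nhds (∏ i ∈ range m, (c - i)))

open Classical in
/-- The number of the `k < K` such that the angles of the curve `y² = x³ + A x + B` at the `s` consecutive primes with the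
numbers `k, ..., k + s - 1` (the primes are numbered from `0`) are in `I 0, ..., I (s - 1)`. -/
noncomputable def boxCount {s : ℕ} (A B : ℤ) (I : Fin s → Set ℝ) (K : ℕ) : ℕ :=
  ((range K).filter (fun k => ∀ i : Fin s, ang A B (Nat.nth Nat.Prime (k + i)) ∈ I i)).card

open Classical in
/-- The proportion of the residues `t` modulo `p` for which the angle of `y² = x³ + a(t) x + b(t)` at `p` is in `S`. -/
noncomputable def proportion (a b : ℤ[X]) (p : ℕ) (S : Set ℝ) : ℝ :=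
  ((range p).filter (fun t : ℕ => ang (a.eval (t : ℤ)) (b.eval (t : ℤ)) p ∈ S)).card / p

/-- The expected number: the sum over `k < K` of the product of the proportions at the `s` primes. -/
noncomputable def boxModel {s : ℕ} (a b : ℤ[X]) (I : Fin s → Set ℝ) (K : ℕ) : ℝ :=
  ∑ k ∈ range K, ∏ i : Fin s, proportion a b (Nat.nth Nat.Prime (k + i)) (I i)

/-- The box with the sides `I i`, where the sides with `i ∈ J` are reflected at `1 / 2`. -/
def reflected {s : ℕ} (J : Finset (Fin s)) (I : Fin s → Set ℝ) : Fin s → Set ℝ :=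
  fun i => if i ∈ J then {x : ℝ | 1 - x ∈ I i} else I i

open Classical in
lemma boxes (c : ℝ) (f : ℝ → ℝ) (hc : 0 < c) (hn : ∀ m : ℕ, c ≠ m) (hf : SmoothlyVarying c f)
    (s : ℕ) (hs : 1 ≤ s) (δ : ℝ) (hδ : 0 < δ) : ∃ κ C : ℝ, 0 < κ ∧ κ ≤ 1 ∧ 1 ≤ C ∧ ∀ (a b : ℤ[X]) (N : ℕ), 1 ≤ N →
        (((Icc 1 N).filter (fun n : ℕ => ¬ ∀ K : ℕ, (K : ℝ) ≤ (N : ℝ) ^ κ →
          ∀ I : Fin s → Set ℝ, (∀ i, (I i).OrdConnected) →
            |(boxCount (a.eval (⌊f n⌋₊ : ℤ)) (b.eval (⌊f n⌋₊ : ℤ)) I K : ℝ) - boxModel a b I K| ≤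
              C * ((K : ℝ) ^ (1 / 2 + δ) * √(1 + Real.log N)))).card : ℝ) ≤ C * (N : ℝ) ^ (1 - κ) := by
  obtain ⟨κ, C, h1, h2, h3, H⟩ := Pool.Agent.N193.PS.sv_consec c f hc hn hf s hs δ hδ
  refine ⟨κ, C, h1, h2, h3, fun a b N hN => ?_⟩
  have hE := H (fun p n => ang (a.eval (n : ℤ)) (b.eval (n : ℤ)) p) (by
    intro p n
    have e : ((n + p : ℕ) : ℤ) - (n : ℤ) = p := by push_cast; ring
    have hd : ∀ g : ℤ[X], (p : ℤ) ∣ g.eval ((n + p : ℕ) : ℤ) - g.eval (n : ℤ) := by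
      intro g
      have := g.sub_dvd_eval_sub ((n + p : ℕ) : ℤ) (n : ℤ)
      rwa [e] at this
    exact ang_congr p (hd a) (hd b)) N hN
  refine le_trans (Nat.cast_le.2 (card_le_card fun n hn => ?_)) hE
  rw [mem_filter] at hn ⊢
  refine ⟨hn.1, fun hcon => hn.2 ?_⟩
  intro K hK I hI
  have h := hcon K hK I hI
  rw [sum_sub_distrib] at h
  have e1 : (boxCount (a.eval (⌊f n⌋₊ : ℤ)) (b.eval (⌊f n⌋₊ : ℤ)) I K : ℝ) = ∑ k ∈ range K,
      Pool.Agent.TH869.SQ.ind I (fun i : Fin s =>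
        ang (a.eval (⌊f n⌋₊ : ℤ)) (b.eval (⌊f n⌋₊ : ℤ)) (Pool.Agent.TH869.SQ.pr (k + i))) := by
    unfold boxCount Pool.Agent.TH869.SQ.ind Pool.Agent.TH869.SQ.pr
    rw [sum_boole]
  have e2 : boxModel a b I K = ∑ k ∈ range K, ∏ i : Fin s,
      Pool.Agent.TH869.SQ.mean (Pool.Agent.TH869.SQ.pr (k + i)) (fun t =>
        Pool.Agent.TH869.SQ.ind1 (I i)
          (ang (a.eval (t : ℤ)) (b.eval (t : ℤ)) (Pool.Agent.TH869.SQ.pr (k + i)))) := by
    unfold boxModel proportion Pool.Agent.TH869.SQ.mean Pool.Agent.TH869.SQ.ind1 Pool.Agent.TH869.SQ.pr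
    refine sum_congr rfl fun k _ => prod_congr rfl fun i _ => ?_
    rw [sum_boole]
  rw [e1, e2]
  unfold Pool.Agent.TH869.SQ.lam at h
  exact h

/-- the counts for the reflected boxes -/
lemma refl_sum {s : ℕ} (A B : ℤ) (I : Fin s → Set ℝ) (K : ℕ) :
    (∑ J : Finset (Fin s), (boxCount A B (reflected J I) K : ℝ)) / 2 ^ s =
      ∑ k ∈ range K, ∏ i : Fin s, (i1 (I i) (ang A B (Nat.nth Nat.Prime (k + i))) +
        i1 (I i) (1 - ang A B (Nat.nth Nat.Prime (k + i)))) / 2 := by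
  classical
  have h1 : ∀ J : Finset (Fin s), (boxCount A B (reflected J I) K : ℝ) = ∑ k ∈ range K, ∏ i : Fin s,
      (if i ∈ J then i1 (I i) (1 - ang A B (Nat.nth Nat.Prime (k + i)))
        else i1 (I i) (ang A B (Nat.nth Nat.Prime (k + i)))) := by
    intro J
    unfold boxCount
    rw [card_filter]
    push_cast
    refine sum_congr rfl fun k _ => ?_
    have h2 : ∀ i : Fin s, (if i ∈ J then i1 (I i) (1 - ang A B (Nat.nth Nat.Prime (k + i)))
        else i1 (I i) (ang A B (Nat.nth Nat.Prime (k + i)))) =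
        if ang A B (Nat.nth Nat.Prime (k + i)) ∈ reflected J I i then 1 else 0 := by
      intro i
      unfold reflected i1
      by_cases h : i ∈ J
      · rw [if_pos h, if_pos h]
        by_cases h9 : 1 - ang A B (Nat.nth Nat.Prime (k + i)) ∈ I i
        · rw [if_pos h9, if_pos (show ang A B (Nat.nth Nat.Prime (k + i)) ∈ {x : ℝ | 1 - x ∈ I i} from h9)]
        · rw [if_neg h9, if_neg (show ang A B (Nat.nth Nat.Prime (k + i)) ∉ {x : ℝ | 1 - x ∈ I i} from h9)]
      · rw [if_neg h, if_neg h]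
    rw [prod_congr rfl fun i _ => h2 i]
    by_cases h : ∀ i : Fin s, ang A B (Nat.nth Nat.Prime (k + i)) ∈ reflected J I i
    · rw [if_pos h]
      symm
      apply prod_eq_one
      intro i _
      rw [if_pos (h i)]
    · rw [if_neg h]
      push Not at h
      obtain ⟨i, hi⟩ := h
      symm
      apply prod_eq_zero (mem_univ i)
      rw [if_neg hi]
  rw [sum_congr rfl fun J _ => h1 J, sum_comm, sum_div]
  refine sum_congr rfl fun k _ => ?_
  rw [prod_div_distrib, prod_const, card_univ, Fintype.card_fin]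
  congr 1
  have h3 := Finset.prod_add (fun i : Fin s => i1 (I i) (1 - ang A B (Nat.nth Nat.Prime (k + i))))
    (fun i : Fin s => i1 (I i) (ang A B (Nat.nth Nat.Prime (k + i)))) univ
  rw [prod_congr rfl fun i _ => add_comm (i1 (I i) (ang A B (Nat.nth Nat.Prime (k + i)))) _, h3, powerset_univ]
  refine sum_congr rfl fun J _ => ?_
  rw [← prod_filter_mul_prod_filter_not univ (fun i : Fin s => i ∈ J)]
  congr 1
  · rw [prod_congr (s₂ := J) (by ext i; simp) fun i _ => rfl]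
    exact prod_congr rfl fun i hi => if_pos hi
  · rw [prod_congr (s₂ := univ \ J) (by ext i; simp) fun i _ => rfl]
    exact prod_congr rfl fun i hi => if_neg (mem_sdiff.1 hi).2

/-- the finite-field model for the twists -/
lemma model_tw {s : ℕ} (A B c₀ κ : ℤ) (hκ : κ ≠ 0) (I : Fin s → Set ℝ) (K : ℕ) :
    |boxModel (C A * (C c₀ + C κ * X) ^ 2) (C B * (C c₀ + C κ * X) ^ 3) I K -
      (∑ J : Finset (Fin s), (boxCount A B (reflected J I) K : ℝ)) / 2 ^ s| ≤
      s * (1 + Real.log K + (2 * κ).natAbs) := by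
  classical
  rw [refl_sum]
  unfold boxModel
  rw [← sum_sub_distrib]
  have hprop : ∀ (p : ℕ) (S : Set ℝ), proportion (C A * (C c₀ + C κ * X) ^ 2) (C B * (C c₀ + C κ * X) ^ 3) p S =
      (∑ t ∈ range p, i1 S (ang (A * (c₀ + κ * t) ^ 2) (B * (c₀ + κ * t) ^ 3) p)) / p := by
    intro p S
    unfold proportion i1
    rw [card_filter]
    push_cast
    congr 1
    refine sum_congr rfl fun t _ => ?_
    simp only [eval_mul, eval_pow, eval_add, eval_C, eval_X]
  have hmean0 : ∀ (p : ℕ) (S : Set ℝ), 0 ≤ proportion (C A * (C c₀ + C κ * X) ^ 2) (C B * (C c₀ + C κ * X) ^ 3) p S ∧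
      proportion (C A * (C c₀ + C κ * X) ^ 2) (C B * (C c₀ + C κ * X) ^ 3) p S ≤ 1 := by
    intro p S
    unfold proportion
    constructor
    · positivity
    · apply div_le_one_of_le₀ _ (Nat.cast_nonneg _)
      exact_mod_cast (card_filter_le _ _).trans (card_range p).le
  have hhalf : ∀ (p : ℕ) (S : Set ℝ), 0 ≤ (i1 S (ang A B p) + i1 S (1 - ang A B p)) / 2 ∧
      (i1 S (ang A B p) + i1 S (1 - ang A B p)) / 2 ≤ 1 := by
    intro p S
    have h1 := i1_nonneg S (ang A B p)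
    have h2 := i1_le S (ang A B p)
    have h3 := i1_nonneg S (1 - ang A B p)
    have h4 := i1_le S (1 - ang A B p)
    constructor <;> linarith
  have hpt : ∀ (p : ℕ) (_ : p.Prime) (S : Set ℝ),
      |proportion (C A * (C c₀ + C κ * X) ^ 2) (C B * (C c₀ + C κ * X) ^ 3) p S -
        (i1 S (ang A B p) + i1 S (1 - ang A B p)) / 2| ≤ if (p : ℤ) ∣ 2 * κ then 1 else 1 / (p : ℝ) := by
    intro p hp S
    by_cases hd : (p : ℤ) ∣ 2 * κ
    · rw [if_pos hd, abs_le]
      have h1 := hmean0 p S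
      have h2 := hhalf p S
      constructor <;> linarith [h1.1, h1.2, h2.1, h2.2]
    · rw [if_neg hd, hprop]
      apply mean_tw A B c₀ κ hp
      · rintro rfl
        exact hd ⟨κ, by push_cast; ring⟩
      · exact fun h => hd (h.mul_left 2)
  refine (abs_sum_le_sum_abs _ _).trans ?_
  have h2 : ∀ k ∈ range K, |∏ i : Fin s, proportion (C A * (C c₀ + C κ * X) ^ 2) (C B * (C c₀ + C κ * X) ^ 3)
      (Nat.nth Nat.Prime (k + i)) (I i) - ∏ i : Fin s, (i1 (I i) (ang A B (Nat.nth Nat.Prime (k + i))) +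
        i1 (I i) (1 - ang A B (Nat.nth Nat.Prime (k + i)))) / 2| ≤
      ∑ i : Fin s, (if ((Nat.nth Nat.Prime (k + i) : ℕ) : ℤ) ∣ 2 * κ then (1 : ℝ) else
        1 / (Nat.nth Nat.Prime (k + i) : ℕ)) := by
    intro k _
    refine (prod_diff univ _ _ (fun i _ => hmean0 _ _) (fun i _ => hhalf _ _)).trans ?_
    exact sum_le_sum fun i _ => hpt _ (Nat.prime_nth_prime _) _
  refine (sum_le_sum h2).trans ?_
  rw [sum_comm]
  refine (sum_le_sum (s := univ) fun (i : Fin s) _ => sum_err κ hκ (i : ℕ) K).trans ?_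
  rw [sum_const, card_univ, Fintype.card_fin, nsmul_eq_mul]

open Classical in
lemma twists (c : ℝ) (f : ℝ → ℝ) (hc : 0 < c) (hn : ∀ m : ℕ, c ≠ m) (hf : SmoothlyVarying c f)
    (s : ℕ) (hs : 1 ≤ s) (δ : ℝ) (hδ : 0 < δ) : ∃ θ : ℝ, 0 < θ ∧ ∀ κ : ℤ, κ ≠ 0 → ∃ C : ℝ, 0 < C ∧
      ∀ (A B c₀ : ℤ) (N : ℕ), 1 ≤ N →
        (((Icc 1 N).filter (fun n : ℕ => ¬ ∀ K : ℕ, (K : ℝ) ≤ (N : ℝ) ^ θ →
          ∀ I : Fin s → Set ℝ, (∀ i, (I i).OrdConnected) →
            |(boxCount (A * (c₀ + κ * (⌊f n⌋₊ : ℕ)) ^ 2) (B * (c₀ + κ * (⌊f n⌋₊ : ℕ)) ^ 3) I K : ℝ) -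
              (∑ J : Finset (Fin s), (boxCount A B (reflected J I) K : ℝ)) / 2 ^ s| ≤
              C * ((K : ℝ) ^ (1 / 2 + δ) * √(1 + Real.log N)))).card : ℝ) ≤ C * (N : ℝ) ^ (1 - θ) := by
  obtain ⟨θ, C, h1, h2, h3, H⟩ := boxes c f hc hn hf s hs δ hδ
  refine ⟨θ, h1, fun κ hκ => ?_⟩
  obtain ⟨M, hM⟩ : ∃ M : ℝ, M = s * (3 + (2 * κ).natAbs) := ⟨_, rfl⟩
  have hM0 : 0 ≤ M := by rw [hM]; positivity
  refine ⟨C + M, by linarith, fun A B c₀ N hN => ?_⟩
  have hmain := H (Polynomial.C A * (Polynomial.C c₀ + Polynomial.C κ * X) ^ 2)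
    (Polynomial.C B * (Polynomial.C c₀ + Polynomial.C κ * X) ^ 3) N hN
  have hN1 : (1 : ℝ) ≤ N := by exact_mod_cast hN
  refine le_trans (Nat.cast_le.2 (card_le_card fun n hn => ?_)) (hmain.trans
    (mul_le_mul_of_nonneg_right (by linarith) (by positivity)))
  rw [mem_filter] at hn ⊢
  refine ⟨hn.1, fun hcon => hn.2 ?_⟩
  intro K hK I hI
  have hb := hcon K hK I hI
  have ea : (Polynomial.C A * (Polynomial.C c₀ + Polynomial.C κ * X) ^ 2 : ℤ[X]).eval (⌊f n⌋₊ : ℤ) =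
      A * (c₀ + κ * (⌊f n⌋₊ : ℕ)) ^ 2 := by
    simp only [eval_mul, eval_pow, eval_add, eval_C, eval_X]
  have eb : (Polynomial.C B * (Polynomial.C c₀ + Polynomial.C κ * X) ^ 3 : ℤ[X]).eval (⌊f n⌋₊ : ℤ) =
      B * (c₀ + κ * (⌊f n⌋₊ : ℕ)) ^ 3 := by
    simp only [eval_mul, eval_pow, eval_add, eval_C, eval_X]
  rw [ea, eb] at hb
  have hm := model_tw A B c₀ κ hκ I K
  rcases Nat.eq_zero_or_pos K with hK0 | hK0
  · subst hK0
    have e0 : (boxCount (A * (c₀ + κ * (⌊f n⌋₊ : ℕ)) ^ 2) (B * (c₀ + κ * (⌊f n⌋₊ : ℕ)) ^ 3) I 0 : ℝ) = 0 := by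
      simp [boxCount]
    have e1 : ∀ J : Finset (Fin s), (boxCount A B (reflected J I) 0 : ℝ) = 0 := by
      intro J
      simp [boxCount]
    rw [e0, sum_congr rfl fun J _ => e1 J]
    simp only [sum_const_zero, zero_div, sub_zero, abs_zero]
    positivity
  · have hK1 : (1 : ℝ) ≤ K := by exact_mod_cast hK0
    obtain ⟨L, hL⟩ : ∃ L : ℝ, L = (K : ℝ) ^ (1 / 2 + δ) * √(1 + Real.log N) := ⟨_, rfl⟩
    rw [← hL] at hb ⊢
    have hr1 : (1 : ℝ) ≤ √(1 + Real.log N) := by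
      rw [Real.one_le_sqrt]
      have := Real.log_nonneg hN1
      linarith
    have hr2 : (K : ℝ) ^ (1 / 2 : ℝ) ≤ (K : ℝ) ^ (1 / 2 + δ) := Real.rpow_le_rpow_of_exponent_le hK1 (by linarith)
    have hr3 : (K : ℝ) ^ (1 / 2 : ℝ) ≤ L := by
      rw [hL]
      calc (K : ℝ) ^ (1 / 2 : ℝ) ≤ (K : ℝ) ^ (1 / 2 + δ) * 1 := by linarith
        _ ≤ _ := mul_le_mul_of_nonneg_left hr1 (by positivity)
    have hr4 : (1 : ℝ) ≤ (K : ℝ) ^ (1 / 2 : ℝ) := Real.one_le_rpow hK1 (by norm_num)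
    have hr5 : Real.log K ≤ 2 * (K : ℝ) ^ (1 / 2 : ℝ) := by
      have := Real.log_le_rpow_div (by linarith : (0 : ℝ) ≤ K) (by norm_num : (0 : ℝ) < 1 / 2)
      linarith
    have hs0 : (0 : ℝ) ≤ s := Nat.cast_nonneg _
    have hk0 : (0 : ℝ) ≤ (2 * κ).natAbs := Nat.cast_nonneg _
    have hr6 : s * (1 + Real.log K + (2 * κ).natAbs) ≤ M * L := by
      rw [hM, mul_assoc]
      apply mul_le_mul_of_nonneg_left _ hs0
      nlinarith
    have e3 : ∀ x y z : ℝ, x - z = (x - y) + (y - z) := fun x y z => by ring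
    rw [e3 _ (boxModel (Polynomial.C A * (Polynomial.C c₀ + Polynomial.C κ * X) ^ 2)
      (Polynomial.C B * (Polynomial.C c₀ + Polynomial.C κ * X) ^ 3) I K) _]
    refine (abs_add_le _ _).trans ?_
    linarith

open Classical in
/-- **(1)** Let `f` be smoothly varying of an index `c > 0` which is not an integer, let `s ≥ 1` and `δ > 0`. There are
`θ > 0` and `C` such that for all polynomials `a, b ∈ ℤ[T]` and all `N ≥ 1`, all the integers `1 ≤ n ≤ N` with at most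
`C N ^ (1 - θ)` exceptions have the following property, with `t = ⌊f n⌋`: for every `K ≤ N ^ θ` and every product of `s`
intervals, the number of the `k < K` such that the angles of `y² = x³ + a(t) x + b(t)` at the `s` consecutive primes with
the numbers `k, ..., k + s - 1` are in the intervals differs from the expected number (the sum over `k < K` of the product
of the proportions for the residues `t` modulo these primes) by at most `C K ^ (1 / 2 + δ) (1 + log N) ^ (1 / 2)`.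

**(2)** For the quadratic twists of a curve `y² = x³ + A x + B` by `D = c₀ + κ ⌊f n⌋` (`κ ≠ 0` fixed) the same holds, with
constants which do not depend on `A`, `B` and `c₀`, and with the mean over the `2 ^ s` reflections of the box of the
numbers for the curve `y² = x³ + A x + B` itself in place of the expected number.

**(3)** (1) and (2) apply to all the functions `f t = ∑ a z t ^ z.1 (log t) ^ z.2` (finite sums) with a leading term `z₀`
whose coefficient is positive and whose exponent `c = z₀.1` is positive and not an integer; for example to `n ^ c`. -/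
theorem result :
    (∀ (c : ℝ) (f : ℝ → ℝ), 0 < c → (∀ m : ℕ, c ≠ m) → SmoothlyVarying c f → ∀ s : ℕ, 1 ≤ s → ∀ δ : ℝ, 0 < δ →
      (∃ θ C : ℝ, 0 < θ ∧ 0 < C ∧ ∀ (a b : ℤ[X]) (N : ℕ), 1 ≤ N →
        (((Icc 1 N).filter (fun n : ℕ => ¬ ∀ K : ℕ, (K : ℝ) ≤ (N : ℝ) ^ θ →
          ∀ I : Fin s → Set ℝ, (∀ i, (I i).OrdConnected) →
            |(boxCount (a.eval (⌊f n⌋₊ : ℤ)) (b.eval (⌊f n⌋₊ : ℤ)) I K : ℝ) - boxModel a b I K| ≤
              C * ((K : ℝ) ^ (1 / 2 + δ) * √(1 + Real.log N)))).card : ℝ) ≤ C * (N : ℝ) ^ (1 - θ)) ∧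
      (∃ θ : ℝ, 0 < θ ∧ ∀ κ : ℤ, κ ≠ 0 → ∃ C : ℝ, 0 < C ∧ ∀ (A B c₀ : ℤ) (N : ℕ), 1 ≤ N →
        (((Icc 1 N).filter (fun n : ℕ => ¬ ∀ K : ℕ, (K : ℝ) ≤ (N : ℝ) ^ θ →
          ∀ I : Fin s → Set ℝ, (∀ i, (I i).OrdConnected) →
            |(boxCount (A * (c₀ + κ * (⌊f n⌋₊ : ℕ)) ^ 2) (B * (c₀ + κ * (⌊f n⌋₊ : ℕ)) ^ 3) I K : ℝ) -
              (∑ J : Finset (Fin s), (boxCount A B (reflected J I) K : ℝ)) / 2 ^ s| ≤
              C * ((K : ℝ) ^ (1 / 2 + δ) * √(1 + Real.log N)))).card : ℝ) ≤ C * (N : ℝ) ^ (1 - θ))) ∧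
    (∀ (F : Finset (ℝ × ℝ)) (a : ℝ × ℝ → ℝ) (z₀ : ℝ × ℝ), z₀ ∈ F → 0 < a z₀ →
      (∀ z ∈ F, z ≠ z₀ → z.1 < z₀.1 ∨ z.1 = z₀.1 ∧ z.2 < z₀.2) →
      SmoothlyVarying z₀.1 (fun t => ∑ z ∈ F, a z * t ^ z.1 * Real.log t ^ z.2)) := by
  refine ⟨fun c f hc hn hf s hs δ hδ => ⟨?_, twists c f hc hn hf s hs δ hδ⟩,
    fun F a z₀ h1 h2 h3 => Pool.Agent.N193.PS.gp_sv F a z₀ h1 h2 h3⟩
  obtain ⟨κ, C, h1, _, h3, H⟩ := boxes c f hc hn hf s hs δ hδ
  exact ⟨κ, C, h1, by linarith, H⟩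

end Pool.Agent.Results.MP_29be01_nt.NonIntegralOrderCurves
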