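import Mathlib
import Pool.Agent.J4.H33.UL.Asm

/-!
# The box counts of the Frobenius angles of almost all quadratic twists, with the order of the law of the iterated logarithm

Definitions (the first two from `Pool.Agent.J4.H33.LIL.Arith`, the third from `Pool.Agent.J4.H33.UL.Asm`):
* `points p A B` is the number of the solutions of `y² = x³ + A x + B` modulo `p`;
* `IsAngles A B x`: for all `k` such that the prime `p_k = Nat.nth Nat.Prime k` does not divide `2 (4 A³ + 27 B²)`, the number
  `x k` is the angle in `[0, 1]` with `2 √p_k cos (π x k) = p_k - points p_k A B` (`= p_k + 1 - #E(F_{p_k})`);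
  at the other primes the `x k` are arbitrary real numbers, so that the convention of the question (`1/2` at the primes dividing the
  conductor) is included;
* `cnt s K y a b` is the number of the `k < K` with `a i ≤ y i k < b i` for all `i < s`. For `y i k = X (k + i)` this is the number
  `A(R; K)` of the question for the sequence `X` and the box `R = [a 0, b 0) × ... × [a (s - 1), b (s - 1))` (indices from `0`).
-/

set_option autoImplicit false

namespace Pool.Agent.Results.MP_29be01_nt.TwistsBoxCounts

open Finset Pool.Agent.J4.H33.LIL Pool.Agent.J4.H33.UL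

open Classical in
/-- For every dimension `s ≥ 1` there is a `C`, and for every `η > 0` there is a `K₀`, such that for every elliptic curve
`y² = x³ + A x + B` with the angles `x k` and for every interval of `H` consecutive integers, all but at most `η H` of the integers `D`
in the interval have the following property: for all `K ≥ K₀ + C (1 + log |4 A³ + 27 B²|)²` and all boxes the number of the `k < K`
for which the vector of the `s` consecutive angles `X k, ..., X (k + s - 1)` of the quadratic twist `y² = x³ + A D² x + B D³` is in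
the box differs from the mean, over the `2 ^ s` sets `σ` of coordinates to be reflected, of the same numbers for the angles of the curve
itself by at most
* `C √(t K) (log K) ^ (1 / t)` for every integer `t ≥ 1` with `K ^ (C t) ≤ H`, and
* `C √(K log log K)`, if `K ^ (C log log K) ≤ H`. -/
theorem result (s : ℕ) (hs : 1 ≤ s) : ∃ C : ℝ, ∀ η : ℝ, 0 < η → ∃ K₀ : ℝ, ∀ A B : ℤ, 4 * A ^ 3 + 27 * B ^ 2 ≠ 0 →
    ∀ x : ℕ → ℝ, IsAngles A B x → ∀ (M : ℤ) (H : ℕ), (((Ico M (M + H)).filter (fun D => ¬ ∀ X : ℕ → ℝ,
      IsAngles (A * D ^ 2) (B * D ^ 3) X → ∀ K : ℕ,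
      K₀ + C * (1 + Real.log |((4 * A ^ 3 + 27 * B ^ 2 : ℤ) : ℝ)|) ^ 2 ≤ K → ∀ a b : Fin s → ℝ,
      (∀ t : ℕ, 1 ≤ t → (K : ℝ) ^ (C * t) ≤ H → |(cnt s K (fun i k => X (k + i)) a b : ℝ) -
        (1 / 2 ^ s) * ∑ σ : Finset (Fin s), (cnt s K (fun i k => if i ∈ σ then 1 - x (k + i) else x (k + i)) a b : ℝ)| ≤
          C * (√(t * K) * Real.log K ^ (1 / (t : ℝ)))) ∧
      ((K : ℝ) ^ (C * Real.log (Real.log K)) ≤ H → |(cnt s K (fun i k => X (k + i)) a b : ℝ) -
        (1 / 2 ^ s) * ∑ σ : Finset (Fin s), (cnt s K (fun i k => if i ∈ σ then 1 - x (k + i) else x (k + i)) a b : ℝ)| ≤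
          C * √(K * Real.log (Real.log K))))).card : ℝ) ≤ η * H :=
  upper_log s hs

end Pool.Agent.Results.MP_29be01_nt.TwistsBoxCounts
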