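import Mathlib
import Pool.Agent.J4.H33.LIL.Fin1

/-!
# For almost all quadratic twists the discrepancy exceeds `√(log log K / K) / 160` for some arbitrarily large `K`

Definitions (from `Pool.Agent.J4.H33.LIL.Arith`):
* `points p A B` is the number of the solutions of `y² = x³ + A x + B` modulo `p`;
* `IsAngles A B x`: for all `k` such that the prime `p_k = Nat.nth Nat.Prime k` does not divide `2 (4 A³ + 27 B²)`, the number
  `x k` is the angle in `[0, 1]` with `2 √p_k cos (π x k) = p_k - points p_k A B` (`= p_k + 1 - #E(F_{p_k})`);
  at the finitely many other primes the `x k` are arbitrary real numbers, so that the convention of the question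
  (`1/2` at the primes dividing the conductor) is included;
* `starDisc x s K` is the star discrepancy of the `K` vectors `(x k, ..., x (k + s - 1))`, `k < K`, with respect to the
  `s`-fold product of the Sato-Tate measure `2 sin² (π u) du`.
-/

set_option autoImplicit false

namespace Pool.Agent.Results.MP_29be01_nt.TwistsIteratedLog

open Finset Pool.Agent.J4.H33.LIL

open Classical in
/-- Let `y² = x³ + A x + B` be an elliptic curve over `ℚ` (`A`, `B` integers), `K₀` an integer and `η > 0`. There are `K₁` and `H₀`
such that in every interval of `H ≥ H₀` consecutive integers all but at most `η H` integers `D` have the following property: there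
is a `K` with `K₀ ≤ K ≤ K₁` such that for all dimensions `s ≥ 1` the star discrepancy of the vectors of `s` consecutive Frobenius
angles of the quadratic twist `y² = x³ + A D² x + B D³` at `K` is at least `√(log log K / K) / 160`. -/
theorem result (A B : ℤ) (hAB : 4 * A ^ 3 + 27 * B ^ 2 ≠ 0) (K₀ : ℕ) (η : ℝ) (hη : 0 < η) :
    ∃ K₁ H₀ : ℕ, ∀ (M : ℤ) (H : ℕ), H₀ ≤ H →
      (((Ico M (M + H)).filter (fun D : ℤ => ¬ ∃ K : ℕ, K₀ ≤ K ∧ K ≤ K₁ ∧
        ∀ x : ℕ → ℝ, IsAngles (A * D ^ 2) (B * D ^ 3) x → ∀ s : ℕ, 1 ≤ s →
          √(Real.log (Real.log K) / K) / 160 ≤ starDisc x s K)).card : ℝ) ≤ η * H :=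
  twists A B hAB K₀ η hη

end Pool.Agent.Results.MP_29be01_nt.TwistsIteratedLog
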