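import Mathlib
import Pool.Agent.J4.H33.GL.Fin

/-!
# The normal law for the Frobenius angles of the quadratic twists, and the order of the discrepancy

Definitions (from `Pool.Agent.J4.H33.LIL.Arith`):
* `points p A B` is the number of the solutions of `y² = x³ + A x + B` modulo `p`;
* `IsAngles A B x`: for all `k` such that the prime `p_k = Nat.nth Nat.Prime k` does not divide `2 (4 A³ + 27 B²)`, the number
  `x k` is the angle in `[0, 1]` with `2 √p_k cos (π x k) = p_k - points p_k A B` (`= p_k + 1 - #E(F_{p_k})`);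
  at the other primes the `x k` are arbitrary real numbers, so that the convention of the question (`1/2` at the primes dividing the
  conductor) is included;
* `starDisc x s K` is the star discrepancy of the `K` vectors `(x k, ..., x (k + s - 1))`, `k < K`, with respect to the
  `s`-fold product of the Sato-Tate measure `2 sin² (π u) du`.
-/

set_option autoImplicit false

namespace Pool.Agent.Results.MP_29be01_nt.TwistsNormalLaw

open Finset Pool.Agent.J4.H33.LIL ProbabilityTheory

open Classical in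
/-- (1) For `ε, η > 0` there is a `C` such that for every elliptic curve `y² = x³ + A x + B` with the angles `x k`, every
`K ≥ C (1 + log |4 A³ + 27 B²|)²`, every interval of `H ≥ K ^ C` consecutive integers `D`, all functions `φ` with `|φ| ≤ 1` and
`V = ∑_{k < K} ((φ (x k) - φ (1 - x k)) / 2)² ≥ η K`, and all `t`: the proportion of the `D` in the interval for which the sum of `φ`
over the first `K` angles of the quadratic twist `y² = x³ + A D² x + B D³` is at most its mean over the reflections plus `t √V`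
is `Φ(t)` up to `ε`, where `Φ` is the distribution function of the standard normal law.

(2) For `ε > 0` and `u ≥ 0` there is a `C` such that for every elliptic curve, `K` and `H` as in (1) at least `(2 Φ(-2u) - ε) H` of
the `D` in the interval have the following property: the star discrepancies of the angles of the twist satisfy
`√K D_K^{*,[s]} ≥ u` for all dimensions `s ≥ 1`. -/
theorem result :
    (∀ ε η : ℝ, 0 < ε → 0 < η → ∃ C : ℝ, ∀ A B : ℤ, 4 * A ^ 3 + 27 * B ^ 2 ≠ 0 →
      ∀ x : ℕ → ℝ, IsAngles A B x → ∀ X : ℤ → ℕ → ℝ, (∀ D, IsAngles (A * D ^ 2) (B * D ^ 3) (X D)) →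
      ∀ (K H : ℕ) (M : ℤ), C * (1 + Real.log |((4 * A ^ 3 + 27 * B ^ 2 : ℤ) : ℝ)|) ^ 2 ≤ K → (K : ℝ) ^ C ≤ H →
      ∀ φ : ℝ → ℝ, (∀ y, |φ y| ≤ 1) → ∀ V : ℝ, V = ∑ k ∈ range K, ((φ (x k) - φ (1 - x k)) / 2) ^ 2 → η * K ≤ V →
      ∀ t : ℝ, |(((Ico M (M + H)).filter (fun D => ∑ k ∈ range K, φ (X D k) ≤
        ∑ k ∈ range K, (φ (x k) + φ (1 - x k)) / 2 + t * √V)).card : ℝ) / H - (gaussianReal 0 1).real (Set.Iic t)| ≤ ε) ∧
    (∀ ε u : ℝ, 0 < ε → 0 ≤ u → ∃ C : ℝ, ∀ A B : ℤ, 4 * A ^ 3 + 27 * B ^ 2 ≠ 0 →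
      ∀ (K H : ℕ) (M : ℤ), C * (1 + Real.log |((4 * A ^ 3 + 27 * B ^ 2 : ℤ) : ℝ)|) ^ 2 ≤ K → (K : ℝ) ^ C ≤ H →
      (2 * (gaussianReal 0 1).real (Set.Iic (-(2 * u))) - ε) * H ≤
        (((Ico M (M + H)).filter (fun D => ∀ X : ℕ → ℝ, IsAngles (A * D ^ 2) (B * D ^ 3) X → (∀ k, 0 ≤ X k ∧ X k < 1) →
          ∀ s : ℕ, 1 ≤ s → u ≤ √K * starDisc X s K)).card : ℝ)) :=
  ⟨fun ε η hε hη => Pool.Agent.J4.H33.GL.normal_law ε η hε hη, fun ε u hε hu => Pool.Agent.J4.H33.GL.disc_law ε u hε hu⟩

end Pool.Agent.Results.MP_29be01_nt.TwistsNormalLaw
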